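import Pool.Agent.helper38.VA.Spec

/-!
# va:LTA — a lattice of logarithms of elements of `H`
-/

set_option autoImplicit false

namespace Pool.Agent.VA

open Matrix Module Pool.Agent.PR Pool.Agent.H48SL

section LTAaux

variable {n : ℕ} {H : Subgroup (SLZ n)}

theorem LTA_zero : EX H (0 : MQ n) :=
  ⟨1, H.one_mem, by rw [stdM_one, IsNilpotent.exp_zero]⟩

theorem LTA_add {X Y : MQ n} (hX : IsNilpotent X) (hY : IsNilpotent Y) (hc : X * Y = Y * X)
    (h1 : EX H X) (h2 : EX H Y) : EX H (X + Y) := by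
  obtain ⟨a, ha, ha'⟩ := h1
  obtain ⟨b, hb, hb'⟩ := h2
  refine ⟨a * b, H.mul_mem ha hb, ?_⟩
  rw [stdM_mul, ha', hb', IsNilpotent.exp_add_of_commute hc hX hY]

theorem LTA_neg {X : MQ n} (hX : IsNilpotent X) (h1 : EX H X) : EX H (-X) := by
  obtain ⟨a, ha, ha'⟩ := h1
  refine ⟨a⁻¹, H.inv_mem ha, ?_⟩
  have h2 := IsNilpotent.exp_mul_exp_neg_self hX
  have h3 := stdM_inv_mul ℚ a
  rw [ha'] at h3
  calc stdM ℚ a⁻¹ = stdM ℚ a⁻¹ * (IsNilpotent.exp X * IsNilpotent.exp (-X)) := by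
        rw [h2, mul_one]
    _ = (stdM ℚ a⁻¹ * IsNilpotent.exp X) * IsNilpotent.exp (-X) := by rw [mul_assoc]
    _ = IsNilpotent.exp (-X) := by rw [h3, one_mul]

theorem LTA_cq_add (A B : Matrix (Fin n) (Fin n) ℤ) : cq (A + B) = cq A + cq B := by
  ext i j
  simp [cq]

theorem LTA_cq_zero : cq (0 : Matrix (Fin n) (Fin n) ℤ) = 0 := by
  ext i j
  simp [cq]

theorem LTA_cq_smul (m : ℤ) (A : Matrix (Fin n) (Fin n) ℤ) : cq (m • A) = m • cq A := by
  ext i j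
  simp only [cq, Matrix.map_apply, Matrix.smul_apply, eq_intCast]
  rw [smul_eq_mul, Int.cast_mul, zsmul_eq_mul]

end LTAaux

/-- LTA -/
theorem LTA : LTA_stmt := by
  intro n H W hnil hcom hlog
  let E : AddSubgroup (MQ n) :=
    { carrier := {X | X ∈ W ∧ EX H X}
      zero_mem' := ⟨W.zero_mem, LTA_zero⟩
      add_mem' := fun {X Y} hX hY => ⟨W.add_mem hX.1 hY.1,
        LTA_add (hnil X hX.1) (hnil Y hY.1) (hcom X hX.1 Y hY.1) hX.2 hY.2⟩
      neg_mem' := fun {X} hX => ⟨W.neg_mem hX.1, LTA_neg (hnil X hX.1) hX.2⟩ }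
  let L : Submodule ℤ (Matrix (Fin n) (Fin n) ℤ) :=
    { carrier := {Z | cq Z ∈ W}
      zero_mem' := by
        show cq (0 : Matrix (Fin n) (Fin n) ℤ) ∈ W
        rw [LTA_cq_zero]
        exact W.zero_mem
      add_mem' := fun {A B} hA hB => by
        show cq (A + B) ∈ W
        rw [LTA_cq_add]
        exact W.add_mem hA hB
      smul_mem' := fun m A hA => by
        show cq (m • A) ∈ W
        rw [LTA_cq_smul]
        exact W.toAddSubgroup.zsmul_mem hA m }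
  obtain ⟨S, hS⟩ : L.FG := IsNoetherian.noetherian L
  have hSL : ∀ Z ∈ S, cq Z ∈ W := by
    intro Z hZ
    have h1 : Z ∈ Submodule.span ℤ (S : Set (Matrix (Fin n) (Fin n) ℤ)) :=
      Submodule.subset_span hZ
    rw [hS] at h1
    exact h1
  have hk : ∀ Z, ∃ k : ℕ, 0 < k ∧ (Z ∈ S → EX H ((k : ℚ) • cq Z)) := by
    intro Z
    by_cases hZ : Z ∈ S
    · obtain ⟨k, h1, h2⟩ := hlog _ (hSL Z hZ)
      exact ⟨k, h1, fun _ => h2⟩
    · exact ⟨1, one_pos, fun h => absurd h hZ⟩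
  choose k hk0 hk using hk
  have hD : 0 < ∏ Z ∈ S, k Z := Finset.prod_pos fun Z _ => hk0 Z
  have key : ∀ Z ∈ Submodule.span ℤ (S : Set (Matrix (Fin n) (Fin n) ℤ)),
      (((∏ Z ∈ S, k Z : ℕ) : ℚ) • cq Z) ∈ E := by
    intro Z hZ
    induction hZ using Submodule.span_induction with
    | mem Z hZ =>
      have hZ' : Z ∈ S := hZ
      have h1 : ((k Z : ℚ) • cq Z) ∈ E := ⟨W.smul_mem _ (hSL Z hZ'), hk Z hZ'⟩
      have h2 := E.nsmul_mem h1 (∏ x ∈ S.erase Z, k x)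
      rw [← Finset.mul_prod_erase S k hZ', mul_comm, Nat.cast_mul, mul_smul]
      rwa [← Nat.cast_smul_eq_nsmul ℚ] at h2
    | zero =>
      rw [LTA_cq_zero, smul_zero]
      exact E.zero_mem
    | add A B _ _ hA hB =>
      rw [LTA_cq_add, smul_add]
      exact E.add_mem hA hB
    | smul m A _ hA =>
      rw [LTA_cq_smul, smul_comm]
      exact E.zsmul_mem hA m
  refine ⟨∏ Z ∈ S, k Z, hD, ?_⟩
  rintro X hX ⟨Z, hZ⟩
  have hD' : ((∏ Z ∈ S, k Z : ℕ) : ℚ) ≠ 0 := by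
    have := hD.ne'
    exact_mod_cast this
  have h1 : cq Z ∈ W := by
    have h2 := W.smul_mem ((∏ Z ∈ S, k Z : ℕ) : ℚ)⁻¹ hX
    rwa [hZ, inv_smul_smul₀ hD'] at h2
  have h2 : Z ∈ Submodule.span ℤ (S : Set (Matrix (Fin n) (Fin n) ℤ)) := by
    rw [hS]
    exact h1
  have h3 := key Z h2
  rw [hZ]
  exact h3.2

end Pool.Agent.VA
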